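import Mathlib

namespace Pool.Agent.MP_aa8e9f_co.H85

open SimpleGraph

abbrev V := Fin 17

/-- all induced continuations from `v` to `y` inside `al` have the parity `par` -/
def chk (a : V → V → Bool) (y : V) : ℕ → V → (V → Bool) → Bool → Bool
  | 0, _, _, _ => false
  | n + 1, v, al, par => bif a v y then !par else
      (List.finRange 17).all fun w => !(a v w && al w) || chk a y n w (fun u => al u && !a v u) (!par)

/-- some induced continuation from `v` to `y` inside `al` has the parity `par` -/
def fnd (a : V → V → Bool) (y : V) : ℕ → V → (V → Bool) → Bool → Bool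
  | 0, _, _, _ => false
  | n + 1, v, al, par => bif a v y then (!par && al y) else
      (List.finRange 17).any fun w => a v w && al w && fnd a y n w (fun u => al u && !a v u) (!par)

def Ind {K : SimpleGraph V} {x y : V} (p : K.Walk x y) : Prop :=
  ∀ i j : ℕ, i + 1 < j → j ≤ p.length → ¬ K.Adj (p.getVert i) (p.getVert j)

lemma chk_sound {K : SimpleGraph V} {a : V → V → Bool} (ha : ∀ x y, K.Adj x y ↔ a x y = true)
    (y : V) : ∀ (n : ℕ) (v : V) (al : V → Bool) (par : Bool) (p : K.Walk v y),
      chk a y n v al par = true → v ≠ y → Ind p →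
      (∀ j, 1 ≤ j → j ≤ p.length → al (p.getVert j) = true) → (Even p.length ↔ par = true)
  | 0, _, _, _, _, h, _, _, _ => by simp [chk] at h
  | n + 1, v, al, par, .nil, _, hv, _, _ => absurd rfl hv
  | n + 1, v, al, par, .cons (v := w) hw q, h, hv, hi, hal => by
    rw [chk] at h
    rcases hy : a v y with _ | _
    · simp only [hy, cond_false, List.all_eq_true, List.mem_finRange, forall_const] at h
      have h1 := h w
      have h2 := hal 1 le_rfl (by simp)
      simp only [Walk.getVert_cons_succ, Walk.getVert_zero] at h2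
      simp only [(ha v w).1 hw, h2, Bool.and_self, Bool.not_true, Bool.false_or] at h1
      have h3 := chk_sound ha y n w _ _ q h1 (by rintro rfl; simp [(ha _ _).1 hw] at hy)
        (fun i j hij hj => by simpa using hi (i + 1) (j + 1) (by omega) (by simpa using hj))
        (fun j h4 h5 => by
          have h6 := hal (j + 1) (by omega) (by simpa using h5)
          have h7 := hi 0 (j + 1) (by omega) (by simpa using h5)
          simp only [Walk.getVert_cons_succ, Walk.getVert_zero, ha] at h6 h7
          simp [h6, h7])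
      rw [Walk.length_cons, Nat.even_add_one, h3]
      simp
    · simp only [hy, cond_true, Bool.not_eq_eq_eq_not, Bool.not_true] at h
      have h1 : q.length = 0 := by
        by_contra h2
        have := hi 0 (q.length + 1) (by omega) (by simp)
        simp [ha, hy] at this
      simp [h1, h]

lemma fnd_sound {K : SimpleGraph V} {a : V → V → Bool} (ha : ∀ x y, K.Adj x y ↔ a x y = true)
    (y : V) : ∀ (n : ℕ) (v : V) (al : V → Bool) (par : Bool),
      fnd a y n v al par = true → al v = false → ∃ p : K.Walk v y, p.IsPath ∧ Ind p ∧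
      (∀ j, 1 ≤ j → j ≤ p.length → al (p.getVert j) = true) ∧ (Even p.length ↔ par = true)
  | 0, _, _, _, h, _ => by simp [fnd] at h
  | n + 1, v, al, par, h, hv => by
    rw [fnd] at h
    rcases hy : a v y with _ | _
    · simp only [hy, cond_false, List.any_eq_true, List.mem_finRange, true_and,
        Bool.and_eq_true] at h
      obtain ⟨w, ⟨h1, h2⟩, h3⟩ := h
      obtain ⟨q, q1, q2, q3, q4⟩ := fnd_sound ha y n w _ _ h3 (by simp [h1])
      have h4 : ∀ j, j ≤ q.length → al (q.getVert j) = true := by
        rintro (_ | j) hj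
        · simpa using h2
        · have := q3 (j + 1) (by omega) hj
          simp only [Bool.and_eq_true] at this
          exact this.1
      refine ⟨.cons ((ha _ _).2 h1) q, ?_, ?_, ?_, ?_⟩
      · rw [Walk.cons_isPath_iff]
        refine ⟨q1, fun hm => ?_⟩
        obtain ⟨j, h5, h6⟩ := Walk.mem_support_iff_exists_getVert.1 hm
        have := h4 j h6
        rw [h5, hv] at this
        exact absurd this (by simp)
      · rintro (_ | i) (_ | j) hij hj
        · omega
        · have := q3 j (by omega) (by simpa using hj)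
          simp only [Bool.and_eq_true, Bool.not_eq_eq_eq_not, Bool.not_true] at this
          simp [ha, this.2]
        · omega
        · simpa using q2 i j (by omega) (by simpa using hj)
      · rintro (_ | j) h5 h6
        · omega
        · simpa using h4 j (by simpa using h6)
      · rw [Walk.length_cons, Nat.even_add_one, q4]
        simp
    · simp only [hy, cond_true, Bool.and_eq_true, Bool.not_eq_eq_eq_not, Bool.not_true] at h
      refine ⟨.cons ((ha _ _).2 hy) .nil, ?_, ?_, ?_, ?_⟩
      · simpa using ((ha _ _).2 hy).ne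
      · intro i j h1 h2
        simp at h2
        omega
      · intro j h1 h2
        obtain rfl : j = 1 := by simp at h2; omega
        simpa using h.2
      · simp [h.1]

def rows : List ℕ :=
  [103862, 91853, 56107, 758, 905, 333, 426, 347, 757, 286, 96259, 115716, 41989, 54274, 44038, 96261, 35843]

def e (x y : V) : Bool := (rows.getD x 0).testBit y

/-- the counterexample: two ten-vertex blocks glued along the triangle `0, 1, 2` -/
def G : SimpleGraph V where
  Adj x y := e x y = true
  symm := ⟨by decide +kernel⟩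
  loopless := ⟨by decide +kernel⟩

def f (s : Bool) (x y : V) : Bool := bif s then e x y else (x != y && !e x y)

def KK (s : Bool) : SimpleGraph V := bif s then G else Gᶜ

lemma KK_adj (s : Bool) (x y : V) : (KK s).Adj x y ↔ f s x y = true := by
  cases s
  · simp [KK, f, G]
  · rfl

inductive Tr : Type
  | L : Tr
  | N (s : Bool) (x y : V) (l r : Tr) : Tr
  | S (x : V) (l r : Tr) : Tr

def cov : Tr → (V → Bool) → (V → Bool) → Bool
  | .L, T, m => ((List.finRange 17).any fun v => m v && !T v) || (List.finRange 17).all m ||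
      ((List.finRange 17).all fun x => (List.finRange 17).all fun y => !(T x && T y) || x == y)
  | .N s x y l r, T, m => x != y && !f s x y && chk (f s) y 17 x (fun u => T u && u != x) true &&
      cov l (fun u => T u && u != x) m && cov r (fun u => T u && u != y) (fun u => m u || u == x)
  | .S x l r, T, m => cov l (fun u => T u && u != x) m && cov r T (fun u => m u || u == x)

def Good (A : Finset V) : Prop :=
  ∃ K : SimpleGraph V, (K = G ∨ K = Gᶜ) ∧
    ∃ x y : V, x ∈ A ∧ y ∈ A ∧ x ≠ y ∧ ¬ K.Adj x y ∧
      ∀ p : K.Walk x y, p.IsPath → (∀ v ∈ p.support, v ∈ A) → Ind p → Even p.length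

lemma cov_sound (A : Finset V) (hA : A ≠ Finset.univ) (h2 : 2 ≤ A.card) :
    ∀ (t : Tr) (T m : V → Bool), cov t T m = true → (∀ v ∈ A, T v = true) →
      (∀ v, m v = true → v ∈ A) → Good A
  | .L, T, m, h, hT, hm => by
    simp only [cov, Bool.or_eq_true, List.any_eq_true, List.mem_finRange, true_and,
      Bool.and_eq_true, List.all_eq_true, forall_const] at h
    rcases h with (⟨v, h1, h3⟩ | h) | h
    · simp [hT v (hm v h1)] at h3
    · exact absurd (Finset.eq_univ_of_forall fun v => hm v (h v)) hA
    · obtain ⟨x, hx, y, hy, hxy⟩ := Finset.one_lt_card.1 h2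
      simpa [hT x hx, hT y hy, hxy] using h x y
  | .N s x y l r, T, m, h, hT, hm => by
    simp only [cov, Bool.and_eq_true, bne_iff_ne, ne_eq, Bool.not_eq_eq_eq_not, Bool.not_true] at h
    obtain ⟨⟨⟨⟨h1, h3⟩, h4⟩, h5⟩, h6⟩ := h
    by_cases hx : x ∈ A
    · by_cases hy : y ∈ A
      · refine ⟨KK s, by cases s <;> simp [KK], x, y, hx, hy, h1, by simp [KK_adj, h3],
          fun p p1 p2 p3 => (chk_sound (KK_adj s) y 17 x _ _ p h4 h1 p3 fun j j1 j2 => ?_).2 rfl⟩
        have h7 : p.getVert j ≠ x := fun h8 => by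
          have := p1.getVert_injOn (show j ∈ {i | i ≤ p.length} from j2)
            (show 0 ∈ {i | i ≤ p.length} by simp) (by simpa using h8)
          omega
        simp [hT _ (p2 _ (p.getVert_mem_support j)), h7]
      · refine cov_sound A hA h2 r _ _ h6 (fun v hv => ?_) fun v hv => ?_
        · simpa [hT v hv] using fun h : v = y => hy (h ▸ hv)
        · simp only [Bool.or_eq_true, beq_iff_eq] at hv
          exact hv.elim (hm v) fun h => h ▸ hx
    · refine cov_sound A hA h2 l _ _ h5 (fun v hv => ?_) hm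
      simpa [hT v hv] using fun h : v = x => hx (h ▸ hv)
  | .S x l r, T, m, h, hT, hm => by
    simp only [cov, Bool.and_eq_true] at h
    by_cases hx : x ∈ A
    · refine cov_sound A hA h2 r _ _ h.2 hT fun v hv => ?_
      simp only [Bool.or_eq_true, beq_iff_eq] at hv
      exact hv.elim (hm v) fun h => h ▸ hx
    · refine cov_sound A hA h2 l _ _ h.1 (fun v hv => ?_) hm
      simpa [hT v hv] using fun h : v = x => hx (h ▸ hv)

open Tr in
def tree : Tr :=
  (S 0 (N true 14 12 (N true 8 3 (N false 3 4 (N true 1 4 (N false 11 16 (N true 13 2 (N true 15 10 (N true 16 5 (N true 10 2 (N true 12 5 (N true 2 4 (N true 5 7 (N true 4 6 (N true 6 9 (N true 7 9 L L) (N false 6 7 L L)) (N false 4 7 L (N false 4 9 L L))) (N true 5 4 L (N true 5 9 L (N false 5 6 L L)))) (N true 2 6 L (N true 2 7 L (N false 2 5 L (N false 2 9 L L))))) (N true 12 9 L (N true 12 4 L (N true 12 6 L (N true 12 7 L (N false 12 2 L L)))))) (N true 10 4 L (N true 10 5 L (N true 10 6 L (N true 10 7 L (N true 10 9 L (N false 10 12 L L))))))) (N true 16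 9 L (N true 16 12 L (N true 16 2 L (N true 16 4 L (N true 16 6 L (N true 16 7 L (N false 16 10 L L)))))))) (N true 15 5 L (N true 15 9 L (N true 15 4 L (N true 15 6 L (N true 15 7 L (N false 15 2 L (N false 15 12 L (N false 15 16 L L))))))))) (N true 13 4 L (N true 13 5 L (N true 13 6 L (N true 13 7 L (N true 13 9 L (N true 13 16 L (N false 13 10 L (N false 13 12 L (N false 13 15 L L)))))))))) (N true 11 5 L (N true 11 9 L (N false 11 2 L (N true 11 4 L (N true 11 6 L (N true 11 7 L (N true 11 12 L (N true 11 13 L (N false 11 10 L (N false 11 15 L L))))))))))) (N true 1 5 L (N false 1 9 L (N false 1 6 L (N false 1 7 L (N false 1 10 L (N true 1 15 L (N true 1 11 L (N true 1 12 L (N false 1 2 L (N false 1 13 L (N false 1 16 L L)))))))))))) (N false 3 5 L (N false 3 1 L (N true 3 15 L (N true 3 11 L (N true 3 12 L (N true 3 10 L (N true 3 13 L (N true 3 16 L (N false 3 2 L (N false 3 6 L (N false 3 7 L (N false 3 9 L L))))))))))))) (N true 8 1 L (N false 8 4 L (N false 8 6 L (N true 8 15 L (N true 8 11 L (N true 8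 12 L (N true 8 10 L (N true 8 13 L (N true 8 16 L (N false 8 2 L (N false 8 5 L (N false 8 7 L (N false 8 9 L L)))))))))))))) (N true 14 16 L (N true 14 3 L (N true 14 9 L (N false 14 10 L (N false 14 11 L (N false 14 13 L (N false 14 2 L (N true 14 6 L (N true 14 7 L (N true 14 4 L (N true 14 5 L (N true 14 8 L (N false 14 1 L (N false 14 15 L L)))))))))))))))
  (S 1 (N true 0 11 L (N false 0 16 L (N true 12 5 (N true 0 14 L (N true 0 13 L (N false 0 15 L (N false 0 10 L (N false 0 8 L (N true 0 3 L (N true 0 6 L (N true 0 9 L (N false 0 2 L (N false 0 4 L (N false 0 5 L (N false 0 7 L L)))))))))))) (N true 12 14 L (N true 0 13 L (N false 0 12 L L))))))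
  (S 2 (N true 0 13 L (N false 0 12 L (N true 7 5 (N true 15 10 (N true 1 11 L (N false 1 10 L (N false 0 16 L (N false 0 8 L (N true 1 4 L (N true 1 5 L (N false 0 1 L L))))))) (N true 1 15 L L)) (N true 7 9 L (N false 7 3 L (N true 0 6 L (N false 0 7 L L)))))))
  (S 3 (N true 0 6 L (N true 0 9 L (N true 2 7 L (N false 1 10 L (N true 2 13 L (N false 2 14 L (N false 0 1 L L)))))))
  (S 4 (N false 2 9 L (N false 3 6 L (N true 0 3 L L)))
  (S 5 (N false 4 8 L (N true 0 3 L L))
  (S 6 (N false 2 5 L L)
  (S 7 (N true 2 4 L L)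
  (S 8 (N true 0 3 L L)
  (S 9 (N false 3 6 L L)
  (S 10 (N true 2 13 L (N true 2 16 L (N true 0 14 L (N false 1 3 L L))))
  (S 11 (N false 0 16 L (N false 10 13 L (N true 2 10 L L)))
  (S 12 (N false 11 15 L (N true 1 11 L L))
  (S 13 (N false 0 12 L L)
  (S 14 (N true 0 11 L L)
  (S 15 (N true 1 11 L L)
  (S 16 (N false 10 13 L L)
  L)))))))))))))))))

lemma tree_ok : cov tree (fun _ => true) (fun _ => false) = true := by decide +kernel

lemma odd_ok : ∀ (s : Bool) (x y : V), x ≠ y → f s x y = false →
    fnd (f s) y 17 x (fun u => u != x) false = true := by decide +kernel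

theorem good_proper (A : Finset V) (hA : A ≠ Finset.univ) (h2 : 2 ≤ A.card) : Good A :=
  cov_sound A hA h2 tree _ _ tree_ok (fun _ _ => rfl) (by simp)

theorem not_good : ¬ Good Finset.univ := by
  rintro ⟨K, hK, x, y, -, -, hxy, h1, h2⟩
  obtain ⟨s, rfl⟩ : ∃ s, K = KK s := hK.elim (fun h => ⟨true, h⟩) fun h => ⟨false, h⟩
  obtain ⟨p, p1, p2, -, p4⟩ := fnd_sound (KK_adj s) y 17 x _ _
    (odd_ok s x y hxy (by simpa [KK_adj] using h1)) (by simp)
  simpa using p4.1 (h2 p p1 (by simp) p2)

def Claw {W : Type} (H : SimpleGraph W) : Prop :=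
  ∃ a b c d, H.Adj a b ∧ H.Adj a c ∧ H.Adj a d ∧ b ≠ c ∧ b ≠ d ∧ c ≠ d ∧
    ¬ H.Adj b c ∧ ¬ H.Adj b d ∧ ¬ H.Adj c d

lemma Claw.map {W W' : Type} {H : SimpleGraph W} {H' : SimpleGraph W'} (φ : H ≃g H')
    (h : Claw H) : Claw H' := by
  obtain ⟨a, b, c, d, h⟩ := h
  exact ⟨φ a, φ b, φ c, φ d, by simpa [φ.map_adj_iff] using h⟩

lemma claw_KK (s : Bool) : Claw (KK s) := by
  cases s
  · exact ⟨3, 0, 10, 12, by simp only [KK_adj]; decide +kernel⟩
  · exact ⟨0, 1, 4, 5, by simp only [KK_adj]; decide +kernel⟩

lemma not_claw_cycle (n : ℕ) : ¬ Claw (cycleGraph (n + 2)) := by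
  rintro ⟨a, b, c, d, h1, h2, h3, h4, h5, h6, -⟩
  rw [← mem_neighborSet, cycleGraph_neighborSet] at h1 h2 h3
  simp only [Set.mem_insert_iff, Set.mem_singleton_iff] at h1 h2 h3
  grind

lemma not_claw_line {W : Type} (B : SimpleGraph W) : ¬ Claw B.lineGraph := by
  rintro ⟨⟨a, ha⟩, b, c, d, h1, h2, h3, h4, h5, h6, h7, h8, h9⟩
  simp only [lineGraph_adj_iff_exists, not_and, not_exists] at h1 h2 h3 h7 h8 h9
  obtain ⟨-, x, x1, x2⟩ := h1
  obtain ⟨-, y, y1, y2⟩ := h2
  obtain ⟨-, z, z1, z2⟩ := h3
  induction a using Sym2.ind with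
  | _ u v =>
    simp only [Sym2.mem_iff] at x1 y1 z1
    rcases x1 with rfl | rfl <;> rcases y1 with rfl | rfl <;> rcases z1 with rfl | rfl <;>
      first
        | exact h7 h4 _ x2 y2
        | exact h8 h5 _ x2 z2
        | exact h9 h6 _ y2 z2

end Pool.Agent.MP_aa8e9f_co.H85
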